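import Mathlib

set_option autoImplicit false

namespace Pool.Agent.H.MP_3d1c33_an

open Set Filter Topology

lemma dd {ι : Type} {f : ι → ℝ → ℝ} {f' b : ι → ℝ} (hb : Summable b)
    (h0 : Summable fun i => f i 0) (hd : ∀ i, HasDerivAt (f i) (f' i) 0)
    (hl : ∀ i t, |t| ≤ 1 → |f i t - f i 0| ≤ b i * |t|) :
    HasDerivAt (fun t => ∑' i, f i t) (∑' i, f' i) 0 := by
  rw [hasDerivAt_iff_tendsto_slope_zero]
  have h1 : ∀ᶠ t : ℝ in 𝓝[≠] 0, |t| ≤ 1 ∧ t ≠ 0 := by
    refine Eventually.and (nhdsWithin_le_nhds ?_) self_mem_nhdsWithin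
    filter_upwards [Icc_mem_nhds (show (-1 : ℝ) < 0 by norm_num) one_pos] with t ht
      using abs_le.2 ht
  have h2 := tendsto_tsum_of_dominated_convergence (𝓕 := 𝓝[≠] (0 : ℝ))
    (f := fun t i => t⁻¹ • (f i (0 + t) - f i 0)) (g := f') hb
    (fun i => hasDerivAt_iff_tendsto_slope_zero.1 (hd i)) (by
      filter_upwards [h1] with t ht i
      rw [zero_add, norm_smul, norm_inv, Real.norm_eq_abs, Real.norm_eq_abs,
        inv_mul_le_iff₀ (abs_pos.2 ht.2), mul_comm]
      exact hl i t ht.1)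
  refine h2.congr' ?_
  filter_upwards [h1] with t ht
  have h3 : Summable fun i => f i t - f i 0 :=
    Summable.of_norm_bounded (hb.mul_right |t|) fun i => hl i t ht.1
  have h4 : Summable fun i => f i t := by simpa using h3.add h0
  simp only [zero_add, smul_eq_mul]
  rw [tsum_mul_left, h4.tsum_sub h0]

noncomputable def sg (x : ℝ) : ℝ := if 0 ≤ x then 1 else -1

lemma sg_abs (x : ℝ) : |sg x| = 1 := by unfold sg; split_ifs <;> simp

lemma abs_deriv {y : ℝ} (z : ℝ) (h : z ≠ 0 → y ≠ 0) :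
    HasDerivAt (fun t : ℝ => |y + t * z|) (sg y * z) 0 := by
  by_cases hz : z = 0
  · simpa [hz] using hasDerivAt_const (0 : ℝ) |y|
  have h1 : HasDerivAt (fun t : ℝ => y + t * z) z 0 := by
    simpa using ((hasDerivAt_id (0 : ℝ)).mul_const z).const_add y
  rcases lt_or_gt_of_ne (h hz) with hy | hy
  · have := (hasDerivAt_abs_neg (x := y + 0 * z) (by simpa using hy)).comp (0 : ℝ) h1
    rw [sg, if_neg (not_le.2 hy)]
    exact this
  · have := (hasDerivAt_abs_pos (x := y + 0 * z) (by simpa using hy)).comp (0 : ℝ) h1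
    rw [sg, if_pos hy.le]
    exact this

lemma cube_deriv (y z : ℝ) :
    HasDerivAt (fun t : ℝ => |y + t * z| ^ 3) (3 * (y * |y|) * z) 0 := by
  have h1 : HasDerivAt (fun t : ℝ => y + t * z) z 0 := by
    simpa using ((hasDerivAt_id (0 : ℝ)).mul_const z).const_add y
  have h2 := (hasDerivAt_abs_rpow (y + 0 * z) (p := 3) (by norm_num)).comp (0 : ℝ) h1
  have h3 : (fun t : ℝ => |y + t * z| ^ 3) = (fun x : ℝ => |x| ^ (3 : ℝ)) ∘ fun t => y + t * z := by
    funext t
    simp only [Function.comp_apply]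
    exact_mod_cast rfl
  rw [h3]
  refine h2.congr_deriv ?_
  norm_num
  left
  ring

lemma jumps {ι : Type} {b p : ι → ℝ} (hb : Summable b) {H : ℝ → ℝ} (hH : Continuous H)
    {D : Set ℝ} (hD : D.Countable) (h : ∀ s, s ∉ D → H s = ∑' i, b i * sg (s - p i)) (s : ℝ) :
    H s = 0 := by
  have hd : Dense Dᶜ := hD.dense_compl ℝ
  have key : ∀ (σ : ℝ) (U : Set ℝ) (g : ι → ℝ), IsOpen U → σ ∈ closure U →
      (∀ i, ∀ᶠ s in 𝓝[U] σ, sg (s - p i) = g i) → H σ = ∑' i, b i * g i := by
    intro σ U g hU hσ hg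
    have hne : (𝓝[U ∩ Dᶜ] σ).NeBot :=
      mem_closure_iff_nhdsWithin_neBot.1 (by
        have := closure_mono (hd.open_subset_closure_inter hU) hσ
        rwa [closure_closure] at this)
    have h1 : Tendsto (fun s => ∑' i, b i * sg (s - p i)) (𝓝[U ∩ Dᶜ] σ) (𝓝 (∑' i, b i * g i)) :=
      tendsto_tsum_of_dominated_convergence hb.abs (fun i => tendsto_const_nhds.congr' (by
        filter_upwards [nhdsWithin_mono σ inter_subset_left (hg i)] with s hs
        rw [hs])) (Eventually.of_forall fun s i => by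
          rw [Real.norm_eq_abs, abs_mul, sg_abs, mul_one])
    refine tendsto_nhds_unique ((hH.tendsto σ).mono_left nhdsWithin_le_nhds) (h1.congr' ?_)
    filter_upwards [self_mem_nhdsWithin] with s hs using (h s hs.2).symm
  have k1 : ∀ σ, H σ = ∑' i, b i * sg (σ - p i) := fun σ =>
    key σ (Ioi σ) _ isOpen_Ioi (by simp) fun i => by
      by_cases hi : 0 ≤ σ - p i
      · filter_upwards [self_mem_nhdsWithin] with s hs
        rw [sg, sg, if_pos hi, if_pos (by linarith [mem_Ioi.1 hs])]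
      · filter_upwards [nhdsWithin_le_nhds (Iio_mem_nhds (show σ < p i by linarith))] with s hs
        rw [sg, sg, if_neg hi, if_neg (by linarith [mem_Iio.1 hs])]
  have k2 : ∀ σ, H σ = ∑' i, b i * -sg (p i - σ) := fun σ =>
    key σ (Iio σ) _ isOpen_Iio (by simp) fun i => by
      by_cases hi : 0 ≤ p i - σ
      · filter_upwards [self_mem_nhdsWithin] with s hs
        rw [sg, sg, if_pos hi, if_neg (by linarith [mem_Iio.1 hs])]
      · filter_upwards [nhdsWithin_le_nhds (Ioi_mem_nhds (show p i < σ by linarith))] with s hs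
        rw [sg, sg, if_neg hi, if_pos (by linarith [mem_Ioi.1 hs]), neg_neg]
  have sm : ∀ g : ι → ℝ, (∀ i, |g i| ≤ 1) → Summable fun i => b i * g i := fun g hg =>
    Summable.of_norm_bounded hb.abs fun i => by
      rw [Real.norm_eq_abs, abs_mul]
      exact mul_le_of_le_one_right (abs_nonneg _) (hg i)
  have k3 : ∀ σ, HasSum (fun i : {i // p i = σ} => b i) 0 := fun σ => by
    have a1 := (sm (fun i => sg (σ - p i)) fun i => (sg_abs _).le).hasSum
    have a2 := (sm (fun i => -sg (p i - σ)) fun i => by rw [abs_neg, sg_abs]).hasSum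
    rw [← k1] at a1
    rw [← k2] at a2
    have a3 := (a1.sub a2).div_const 2
    rw [sub_self, zero_div] at a3
    refine (hasSum_subtype_iff_indicator (s := {i | p i = σ}) (f := b)).2 ?_
    refine a3.congr_fun fun i => ?_
    rcases lt_trichotomy (p i) σ with hi | hi | hi
    · rw [indicator_of_notMem (by simpa using hi.ne), sg, sg, if_pos (by linarith),
        if_neg (by linarith)]
      ring
    · rw [indicator_of_mem (by simpa using hi), sg, sg, if_pos (by linarith),
        if_pos (by linarith)]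
      ring
    · rw [indicator_of_notMem (by simpa using hi.ne'), sg, sg, if_neg (by linarith),
        if_pos (by linarith)]
      ring
  have a1 := (sm (fun i => sg (s - p i)) fun i => (sg_abs _).le).hasSum
  rw [← k1, ← (Equiv.sigmaFiberEquiv p).hasSum_iff] at a1
  have a2 := a1.sigma (g := fun _ => 0) fun σ => by
    have := (k3 σ).mul_right (sg (s - σ))
    rw [zero_mul] at this
    refine this.congr_fun fun i => ?_
    simp only [Function.comp_apply, Equiv.sigmaFiberEquiv_apply]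
    rw [i.2]
  exact a2.unique hasSum_zero

noncomputable def D4 (x e : ℝ) : ℝ :=
  (x + 2 * e) * |x + 2 * e| - 2 * ((x + e) * |x + e|) + 2 * ((x - e) * |x - e|) -
    (x - 2 * e) * |x - 2 * e|

lemma D4_far {x e : ℝ} (h : 2 * |e| ≤ |x|) : D4 x e = 0 := by
  have h1 := le_abs_self e
  have h2 := neg_abs_le e
  have h3 := abs_nonneg e
  unfold D4
  rcases le_total 0 x with hx | hx
  · rw [abs_of_nonneg hx] at h
    rw [abs_of_nonneg (by linarith), abs_of_nonneg (by linarith), abs_of_nonneg (by linarith),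
      abs_of_nonneg (by linarith)]
    ring
  · rw [abs_of_nonpos hx] at h
    rw [abs_of_nonpos (by linarith), abs_of_nonpos (by linarith), abs_of_nonpos (by linarith),
      abs_of_nonpos (by linarith)]
    ring

lemma D4_zero (e : ℝ) : D4 0 e = 4 * (e * |e|) := by
  unfold D4
  simp only [zero_add, zero_sub, abs_neg, abs_mul, abs_two]
  ring

lemma D4_le (x e : ℝ) : |D4 x e| ≤ 96 * e ^ 2 := by
  rcases le_total (2 * |e|) |x| with h | h
  · rw [D4_far h, abs_zero]
    positivity
  have h1 := le_abs_self e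
  have h2 := neg_abs_le e
  have h3 := abs_le.1 h
  have k : ∀ y : ℝ, |y| ≤ 4 * |e| → |y * (|y|)| ≤ 16 * e ^ 2 := fun y hy => by
    rw [abs_mul, abs_abs, ← sq_abs e]
    nlinarith [abs_nonneg y]
  have a1 := abs_le.1 (k (x + 2 * e) (abs_le.2 ⟨by linarith, by linarith⟩))
  have a2 := abs_le.1 (k (x + e) (abs_le.2 ⟨by linarith, by linarith⟩))
  have a3 := abs_le.1 (k (x - e) (abs_le.2 ⟨by linarith, by linarith⟩))
  have a4 := abs_le.1 (k (x - 2 * e) (abs_le.2 ⟨by linarith, by linarith⟩))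
  unfold D4
  rw [abs_le]
  constructor <;> linarith [a1.1, a1.2, a2.1, a2.2, a3.1, a3.2, a4.1, a4.2]

lemma quad {u v c : ℕ → ℝ} (hv : Summable fun n => |c n| * v n ^ 2)
    (h : ∀ s : ℝ, HasSum (fun n => c n * ((u n + s * v n) * |u n + s * v n|)) 0) (σ : ℝ) :
    ∑' n, c n * (if u n + σ * v n = 0 then 4 * (v n * |v n|) else 0) = 0 := by
  have h1 : ∀ t : ℝ, ∑' n, c n * D4 (u n + σ * v n) (t * v n) / t ^ 2 = 0 := fun t => by
    have := (((((h (σ + 2 * t)).sub ((h (σ + t)).mul_left 2)).add ((h (σ - t)).mul_left 2)).sub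
      (h (σ - 2 * t))).div_const (t ^ 2))
    simp only [mul_zero, sub_zero, add_zero, zero_div] at this
    refine (this.congr_fun fun n => ?_).tsum_eq
    unfold D4
    rw [show u n + σ * v n + 2 * (t * v n) = u n + (σ + 2 * t) * v n by ring,
      show u n + σ * v n + t * v n = u n + (σ + t) * v n by ring,
      show u n + σ * v n - t * v n = u n + (σ - t) * v n by ring,
      show u n + σ * v n - 2 * (t * v n) = u n + (σ - 2 * t) * v n by ring]
    ring
  have h2 := tendsto_tsum_of_dominated_convergence (𝓕 := 𝓝[>] (0 : ℝ))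
    (f := fun t n => c n * D4 (u n + σ * v n) (t * v n) / t ^ 2)
    (g := fun n => c n * (if u n + σ * v n = 0 then 4 * (v n * |v n|) else 0)) (hv.mul_left 96)
    (fun n => tendsto_const_nhds.congr' (by
      by_cases hn : u n + σ * v n = 0
      · filter_upwards [self_mem_nhdsWithin] with t ht
        have ht' : 0 < t := ht
        rw [if_pos hn, hn, D4_zero, abs_mul, abs_of_pos ht']
        field_simp
      · have hc : Tendsto (fun t : ℝ => 2 * |t * v n|) (𝓝 0) (𝓝 0) := by
          have : Continuous fun t : ℝ => 2 * |t * v n| := by fun_prop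
          simpa using this.tendsto 0
        filter_upwards [nhdsWithin_le_nhds (hc.eventually (ge_mem_nhds (abs_pos.2 hn)))] with t ht
        rw [if_neg hn, D4_far ht]
        simp)) (by
      filter_upwards [self_mem_nhdsWithin] with t ht n
      have ht' : 0 < t := ht
      rw [Real.norm_eq_abs, abs_div, abs_mul, abs_of_pos (pow_pos ht' 2),
        div_le_iff₀ (pow_pos ht' 2)]
      have := mul_le_mul_of_nonneg_left (D4_le (u n + σ * v n) (t * v n)) (abs_nonneg (c n))
      nlinarith)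
  simp only [h1] at h2
  exact tendsto_nhds_unique h2 tendsto_const_nhds |>.symm ▸ rfl

lemma ps {c : ℕ → ℝ} {r : NNReal} (hr : 0 < r) {C : ℝ} (h : ∀ k, |c k| * (r : ℝ) ^ k ≤ C) :
    HasFPowerSeriesOnBall (fun t : ℝ => ∑' k, c k * t ^ k)
      (FormalMultilinearSeries.ofScalars ℝ c) 0 r := by
  have h1 : (r : ENNReal) ≤ (FormalMultilinearSeries.ofScalars ℝ c).radius :=
    FormalMultilinearSeries.le_radius_of_bound _ C fun k => by
      rw [FormalMultilinearSeries.ofScalars_norm]
      exact h k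
  have h2 : (0 : ENNReal) < r := by exact_mod_cast hr
  have h3 := ((FormalMultilinearSeries.ofScalars ℝ c).hasFPowerSeriesOnBall
    (h2.trans_le h1)).mono h2 h1
  have h4 := FormalMultilinearSeries.ofScalarsSum_eq_tsum (E := ℝ) c
  rw [FormalMultilinearSeries.ofScalarsSum] at h4
  rw [h4] at h3
  exact h3

lemma wron {f g : ℝ → ℝ} (hf : AnalyticAt ℝ f 0) (hg : AnalyticAt ℝ g 0)
    (h1 : ¬ ∃ᶠ t in 𝓝[≠] 0, g t = 0) (h2 : ∀ s : ℝ, ¬ ∃ᶠ t in 𝓝[≠] 0, f t + s * g t = 0) :
    ∃ δ : ℝ, 0 < δ ∧ (∀ t ∈ Ioo 0 δ, g t ≠ 0) ∧ InjOn (fun t => f t / g t) (Ioo 0 δ) := by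
  rw [not_frequently] at h1
  have hW : AnalyticAt ℝ (fun t => deriv f t * g t - f t * deriv g t) 0 :=
    (hf.deriv.mul hg).sub (hf.mul hg.deriv)
  have hb : ∀ᶠ t in 𝓝[≠] (0 : ℝ), g t ≠ 0 ∧ HasDerivAt (fun t => f t / g t)
      ((deriv f t * g t - f t * deriv g t) / g t ^ 2) t := by
    filter_upwards [h1, nhdsWithin_le_nhds hf.eventually_analyticAt,
      nhdsWithin_le_nhds hg.eventually_analyticAt] with t a1 a2 a3
    exact ⟨a1, a2.differentiableAt.hasDerivAt.fun_div a3.differentiableAt.hasDerivAt a1⟩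
  have hm : 𝓝[>] (0 : ℝ) ≤ 𝓝[≠] 0 := nhdsWithin_mono _ fun t ht => ne_of_gt ht
  rcases hW.eventually_eq_zero_or_eventually_ne_zero with h | h
  · obtain ⟨δ, hδ, hI⟩ := mem_nhdsGT_iff_exists_Ioo_subset.1
      (hm (hb.and (nhdsWithin_le_nhds h)))
    have hδ' : 0 < δ := hδ
    have hc : ∀ t ∈ Ioo 0 δ, f t / g t = f (δ / 2) / g (δ / 2) := fun t ht =>
      isOpen_Ioo.is_const_of_deriv_eq_zero (f := fun t => f t / g t) isPreconnected_Ioo
        (fun t ht => (hI ht).1.2.differentiableAt.differentiableWithinAt)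
        (fun t ht => by rw [(hI ht).1.2.deriv, (hI ht).2, zero_div]; rfl) ht
        ⟨by linarith, by linarith⟩
    refine absurd (Frequently.filter_mono (Eventually.frequently ?_) hm)
      (h2 (-(f (δ / 2) / g (δ / 2))))
    filter_upwards [Ioo_mem_nhdsGT hδ'] with t ht
    rw [← hc t ht]
    have := (hI ht).1.1
    field_simp
    ring
  · obtain ⟨δ, hδ, hI⟩ := mem_nhdsGT_iff_exists_Ioo_subset.1 (hm (hb.and h))
    refine ⟨δ, hδ, fun t ht => (hI ht).1.1, ?_⟩
    have key : ∀ a ∈ Ioo 0 δ, ∀ b ∈ Ioo 0 δ, a < b → f a / g a ≠ f b / g b := by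
      intro a ha b hb' hab he
      have hs : Icc a b ⊆ Ioo 0 δ := fun t ht => ⟨ha.1.trans_le ht.1, ht.2.trans_lt hb'.2⟩
      obtain ⟨c, hc, h0⟩ := exists_hasDerivAt_eq_zero (f := fun t => f t / g t) hab
        (fun t ht => (hI (hs ht)).1.2.continuousAt.continuousWithinAt) he
        fun t ht => (hI (hs (Ioo_subset_Icc_self ht))).1.2
      have hc' := hI (hs (Ioo_subset_Icc_self hc))
      exact div_ne_zero hc'.2 (pow_ne_zero 2 hc'.1.1) h0
    intro a ha b hb' he
    rcases lt_trichotomy a b with hab | hab | hab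
    · exact absurd he (key a ha b hb' hab)
    · exact hab
    · exact absurd he.symm (key b hb' a ha hab)

end Pool.Agent.H.MP_3d1c33_an
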