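import Pool.Agent.H.MP_3d1c33_an.A

set_option autoImplicit false

namespace Pool.Agent.H.MP_3d1c33_an

open Set Filter Topology

abbrev G : Type := Set.Icc (0 : ℝ) 1

instance fact3 : Fact ((1 : ENNReal) ≤ 3) := ⟨by norm_num⟩

abbrev K1 : Type := lp (fun _ : G => ℝ) 1

abbrev K3 : Type := lp (fun _ : ℕ => ℝ) 3

def L1 : Type := K1

def L3 : Type := K3

noncomputable instance : NormedAddCommGroup L1 := inferInstanceAs (NormedAddCommGroup K1)
noncomputable instance : NormedSpace ℝ L1 := inferInstanceAs (NormedSpace ℝ K1)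
instance : CompleteSpace L1 := inferInstanceAs (CompleteSpace K1)
noncomputable instance : NormedAddCommGroup L3 := inferInstanceAs (NormedAddCommGroup K3)
noncomputable instance : NormedSpace ℝ L3 := inferInstanceAs (NormedSpace ℝ K3)
instance : CompleteSpace L3 := inferInstanceAs (CompleteSpace K3)

def co1 (x : L1) (γ : G) : ℝ := (show K1 from x) γ
def co3 (x : L3) (n : ℕ) : ℝ := (show K3 from x) n

instance : CoeFun L1 fun _ => G → ℝ := ⟨co1⟩
instance : CoeFun L3 fun _ => ℕ → ℝ := ⟨co3⟩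

lemma add1 (x y : L1) (γ : G) : (x + y) γ = x γ + y γ := rfl
lemma sub1 (x y : L1) (γ : G) : (x - y) γ = x γ - y γ := rfl
lemma smul1 (c : ℝ) (x : L1) (γ : G) : (c • x) γ = c * x γ := rfl
lemma zero1 (γ : G) : (0 : L1) γ = 0 := rfl
lemma zero3 (n : ℕ) : (0 : L3) n = 0 := rfl
lemma ext1 {x y : L1} (h : ∀ γ, x γ = y γ) : x = y := lp.ext (funext h)

lemma le1 (x : L1) (γ : G) : |x γ| ≤ ‖x‖ :=
  lp.norm_apply_le_norm (by norm_num) (show K1 from x) γ

lemma le3 (u : L3) (n : ℕ) : |u n| ≤ ‖u‖ :=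
  lp.norm_apply_le_norm (by norm_num) (show K3 from u) n

noncomputable def ev1 (γ : G) : L1 →L[ℝ] ℝ :=
  LinearMap.mkContinuous ⟨⟨fun x => x γ, fun _ _ => rfl⟩, fun _ _ => rfl⟩ 1 fun x => by
    simpa using le1 x γ

noncomputable def ev3 (n : ℕ) : L3 →L[ℝ] ℝ :=
  LinearMap.mkContinuous ⟨⟨fun x => x n, fun _ _ => rfl⟩, fun _ _ => rfl⟩ 1 fun x => by
    simpa using le3 x n

lemma n1 (x : L1) : HasSum (fun γ => |x γ|) ‖x‖ := by
  have := lp.hasSum_norm (p := 1) (by norm_num) (show K1 from x)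
  simp only [ENNReal.toReal_one, Real.rpow_one, Real.norm_eq_abs] at this
  exact this

lemma n3 (u : L3) : HasSum (fun n => |u n| ^ 3) (‖u‖ ^ 3) := by
  have := lp.hasSum_norm (p := 3) (by norm_num) (show K3 from u)
  simp only [ENNReal.toReal_ofNat, Real.norm_eq_abs, Real.rpow_ofNat] at this
  exact this

lemma sm1 (x : L1) {g : G → ℝ} {C : ℝ} (hg : ∀ γ, |g γ| ≤ C) : Summable fun γ => x γ * g γ :=
  Summable.of_norm_bounded ((n1 x).summable.mul_right C) fun γ => by
    rw [Real.norm_eq_abs, abs_mul]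
    exact mul_le_mul_of_nonneg_left (hg γ) (abs_nonneg _)

lemma pow_le (k : ℕ) (γ : G) : |(γ : ℝ) ^ k| ≤ 1 := by
  rw [abs_of_nonneg (pow_nonneg γ.2.1 k)]
  exact pow_le_one₀ γ.2.1 γ.2.2

noncomputable def mu (k : ℕ) : L1 →L[ℝ] ℝ :=
  LinearMap.mkContinuous
    ⟨⟨fun x => ∑' γ : G, x γ * (γ : ℝ) ^ k, fun x y => by
        rw [← (sm1 x (pow_le k)).tsum_add (sm1 y (pow_le k))]
        exact tsum_congr fun γ => by rw [add1, add_mul]⟩,
      fun c x => by
        simp only [RingHom.id_apply, smul_eq_mul]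
        rw [← tsum_mul_left]
        exact tsum_congr fun γ => by rw [smul1, mul_assoc]⟩ 1 fun x => by
    rw [one_mul]
    refine tsum_of_norm_bounded (n1 x) fun γ => ?_
    rw [Real.norm_eq_abs, abs_mul]
    exact mul_le_of_le_one_right (abs_nonneg _) (pow_le k γ)

lemma mu_apply (k : ℕ) (x : L1) : mu k x = ∑' γ : G, x γ * (γ : ℝ) ^ k := rfl

lemma mu_norm (k : ℕ) : ‖mu k‖ ≤ 1 := LinearMap.mkContinuous_norm_le _ zero_le_one _

lemma mu_le (k : ℕ) (x : L1) : |mu k x| ≤ ‖x‖ :=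
  ((mu k).le_opNorm x).trans (mul_le_of_le_one_left (norm_nonneg _) (mu_norm k))

open Classical in
noncomputable def e (γ : G) : L1 := (lp.single 1 γ 1 : K1)

open Classical in
lemma e_apply (γ δ : G) : e γ δ = if δ = γ then 1 else 0 := by
  split_ifs with h
  · subst h
    exact lp.single_apply_self (E := fun _ : G => ℝ) 1 _ _
  · exact lp.single_apply_ne (E := fun _ : G => ℝ) 1 _ _ h

lemma e_norm (γ : G) : ‖e γ‖ = 1 := by
  rw [← (n1 (e γ)).tsum_eq, tsum_eq_single γ fun δ h => by rw [e_apply, if_neg h, abs_zero],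
    e_apply, if_pos rfl, abs_one]

lemma mu_e (k : ℕ) (γ : G) : mu k (e γ) = (γ : ℝ) ^ k := by
  rw [mu_apply, tsum_eq_single γ fun δ h => by rw [e_apply, if_neg h, zero_mul], e_apply,
    if_pos rfl, one_mul]

lemma moments {x : L1} (h : ∀ k, mu k x = 0) : x = 0 := by
  have h1 : ∀ q : Polynomial ℝ, HasSum (fun γ : G => x γ * q.eval (γ : ℝ)) 0 := fun q => by
    induction q using Polynomial.induction_on' with
    | add p q hp hq => simpa [mul_add] using hp.add hq
    | monomial k c =>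
      have := (sm1 x (pow_le k)).hasSum.mul_left c
      rw [← mu_apply, h k, mul_zero] at this
      exact this.congr_fun fun γ => by rw [Polynomial.eval_monomial]; ring
  refine ext1 fun γ0 => ?_
  have hb : ∀ γ : G, 0 ≤ 1 - ((γ : ℝ) - γ0) ^ 2 := fun γ => by
    nlinarith [γ.2.1, γ.2.2, γ0.2.1, γ0.2.2]
  have h2 := tendsto_tsum_of_dominated_convergence (𝓕 := atTop)
    (f := fun (j : ℕ) (γ : G) => x γ * (1 - ((γ : ℝ) - γ0) ^ 2) ^ j)
    (g := fun γ => x γ * e γ0 γ) (n1 x).summable (fun γ => by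
      refine Tendsto.const_mul _ ?_
      rw [e_apply]
      split_ifs with hγ
      · exact tendsto_const_nhds.congr fun j => by rw [hγ, sub_self]; norm_num
      · have : (γ : ℝ) - γ0 ≠ 0 := fun h => hγ (Subtype.ext (sub_eq_zero.1 h))
        exact tendsto_pow_atTop_nhds_zero_of_lt_one (hb γ) (by have := sq_pos_of_ne_zero this; linarith))
    (Eventually.of_forall fun j γ => by
      rw [Real.norm_eq_abs, abs_mul, abs_of_nonneg (pow_nonneg (hb γ) j)]
      exact mul_le_of_le_one_right (abs_nonneg _)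
        (pow_le_one₀ (hb γ) (by nlinarith [sq_nonneg ((γ : ℝ) - γ0)])))
  have h3 : ∀ j : ℕ, ∑' γ : G, x γ * (1 - ((γ : ℝ) - γ0) ^ 2) ^ j = 0 := fun j => by
    refine Eq.trans ?_ (h1 ((1 - (Polynomial.X - Polynomial.C (γ0 : ℝ)) ^ 2) ^ j)).tsum_eq
    exact tsum_congr fun γ => by
      rw [Polynomial.eval_pow, Polynomial.eval_sub, Polynomial.eval_one, Polynomial.eval_pow,
        Polynomial.eval_sub, Polynomial.eval_X, Polynomial.eval_C]
  simp only [h3] at h2
  have h4 := tendsto_nhds_unique h2 tendsto_const_nhds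
  rw [tsum_eq_single γ0 fun δ h => by rw [e_apply, if_neg h, mul_zero], e_apply, if_pos rfl,
    mul_one] at h4
  exact h4

noncomputable def phi (x : L1) (t : ℝ) : ℝ := ∑' k, mu k x * t ^ k

lemma phi_ps (x : L1) : HasFPowerSeriesOnBall (phi x)
    (FormalMultilinearSeries.ofScalars ℝ fun k => mu k x) 0 (1 : NNReal) :=
  ps one_pos (C := ‖x‖) fun k => by simpa using mu_le k x

lemma phi_an (x : L1) : AnalyticAt ℝ (phi x) 0 := (phi_ps x).hasFPowerSeriesAt.analyticAt

lemma phi_inj {x : L1} (h : ∃ᶠ t in 𝓝[≠] 0, phi x t = 0) : x = 0 := by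
  have h1 := (phi_an x).frequently_zero_iff_eventually_zero.1 h
  have h2 := (phi_ps x).hasFPowerSeriesAt.eq_zero_of_eventually h1
  rw [FormalMultilinearSeries.ofScalars_series_eq_zero] at h2
  exact moments fun k => congrFun h2 k

lemma phi_sm (x : L1) {t : ℝ} (ht : |t| < 1) : Summable fun k => mu k x * t ^ k :=
  Summable.of_norm_bounded ((summable_geometric_of_lt_one (abs_nonneg t) ht).mul_left ‖x‖)
    fun k => by
      rw [Real.norm_eq_abs, abs_mul, abs_pow]
      exact mul_le_mul_of_nonneg_right (mu_le k x) (by positivity)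

lemma phi_lin (x y : L1) (s : ℝ) {t : ℝ} (ht : |t| < 1) :
    phi (x + s • y) t = phi x t + s * phi y t := by
  unfold phi
  rw [← tsum_mul_left, ← (phi_sm x ht).tsum_add ((phi_sm y ht).mul_left s)]
  exact tsum_congr fun k => by rw [map_add, map_smul, smul_eq_mul]; ring

noncomputable def lam (n : ℕ) : ℝ := if n = 0 then 0 else (1 / 2) ^ n

lemma lam_le (n : ℕ) : |lam n| ≤ 1 / 2 := by
  unfold lam
  split_ifs with h
  · norm_num
  · rw [abs_of_pos (by positivity)]
    exact pow_le_of_le_one (by norm_num) (by norm_num) h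

lemma lam_eq {n : ℕ} (h : 1 ≤ n) : lam n = (1 / 2) ^ n := if_neg (by omega)

lemma lam_tend : Tendsto lam atTop (𝓝[>] 0) := by
  refine Tendsto.congr' (f₁ := fun n => (1 / 2 : ℝ) ^ n) ?_
    (tendsto_pow_atTop_nhdsWithin_zero_of_lt_one (by norm_num) (by norm_num))
  filter_upwards [eventually_ge_atTop 1] with n hn using (lam_eq hn).symm

lemma mle (k n : ℕ) : |(1 / 2 : ℝ) ^ n * lam n ^ k| ≤ (1 / 2) ^ k * (1 / 2) ^ n := by
  rw [abs_mul, abs_of_pos (by positivity), abs_pow, mul_comm]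
  exact mul_le_mul_of_nonneg_right (pow_le_pow_left₀ (abs_nonneg _) (lam_le n) k) (by positivity)

noncomputable def m (k : ℕ) : L3 := show K3 from ⟨fun n => (1 / 2) ^ n * lam n ^ k, memℓp_gen (by
  refine Summable.of_nonneg_of_le (fun n => by positivity) (fun n => ?_) summable_geometric_two
  have h1 := mle k n
  have h2 : (1 / 2 : ℝ) ^ k ≤ 1 := pow_le_one₀ (by norm_num) (by norm_num)
  have h3 : (1 / 2 : ℝ) ^ n ≤ 1 := pow_le_one₀ (by norm_num) (by norm_num)
  have h4 : (0 : ℝ) < (1 / 2 : ℝ) ^ n := by positivity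
  have h5 : |(1 / 2 : ℝ) ^ n * lam n ^ k| ≤ (1 / 2) ^ n := by nlinarith
  refine (Real.rpow_le_self_of_le_one (norm_nonneg _) (h5.trans h3) (by norm_num)).trans h5)⟩

lemma m_apply (k n : ℕ) : m k n = (1 / 2) ^ n * lam n ^ k := rfl

lemma m_norm (k : ℕ) : ‖m k‖ ≤ ‖m 0‖ * (1 / 2) ^ k := by
  have : ‖m k‖ ≤ ‖((1 / 2 : ℝ) ^ k) • m 0‖ := lp.norm_mono (p := 3) (by norm_num)
      (x := show K3 from m k) (y := show K3 from ((1 / 2 : ℝ) ^ k) • m 0) fun n => by
    show |(1 / 2 : ℝ) ^ n * lam n ^ k| ≤ |(1 / 2 : ℝ) ^ k * ((1 / 2) ^ n * lam n ^ 0)|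
    rw [pow_zero, mul_one, abs_of_pos (a := (1 / 2 : ℝ) ^ k * (1 / 2) ^ n) (by positivity)]
    exact mle k n
  rwa [norm_smul, Real.norm_eq_abs, abs_of_pos (by positivity), mul_comm] at this

noncomputable def T : L1 →L[ℝ] L3 := ∑' k, (mu k).smulRight (m k)

lemma T_sum (x : L1) : HasSum (fun k => mu k x • m k) (T x) := by
  have : Summable fun k => (mu k).smulRight (m k) :=
    Summable.of_norm_bounded (summable_geometric_two.mul_left ‖m 0‖) fun k => by
      rw [ContinuousLinearMap.norm_smulRight_apply]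
      exact (mul_le_of_le_one_left (norm_nonneg _) (mu_norm k)).trans (m_norm k)
  have h := (ContinuousLinearMap.apply ℝ L3 x).hasSum this.hasSum
  simp only [ContinuousLinearMap.apply_apply, ContinuousLinearMap.smulRight_apply] at h
  unfold T
  exact h

lemma T_apply (x : L1) (n : ℕ) : T x n = (1 / 2) ^ n * phi x (lam n) := by
  have h := (ev3 n).hasSum (T_sum x)
  rw [phi, ← tsum_mul_left]
  refine h.tsum_eq.symm.trans (tsum_congr fun k => ?_)
  show mu k x * ((1 / 2) ^ n * lam n ^ k) = _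
  ring

lemma T_ev {x : L1} (h : ∀ᶠ n in atTop, T x n = 0) : x = 0 := by
  refine phi_inj (Frequently.filter_mono ?_ (nhdsWithin_mono _ fun t ht => ne_of_gt ht))
  refine lam_tend.frequently (Eventually.frequently ?_)
  filter_upwards [h] with n hn
  rw [T_apply] at hn
  exact (mul_eq_zero.1 hn).resolve_left (by positivity)

lemma T_inj {x : L1} (h : T x = 0) : x = 0 := T_ev (Eventually.of_forall fun n => by rw [h, zero3])

lemma mu_le_T (x : L1) : |mu 0 x| ≤ ‖T x‖ := by
  have h := le3 (T x) 0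
  rw [T_apply, phi, tsum_eq_single 0 fun k hk => by simp [lam, hk]] at h
  simpa using h

lemma dens {A : Set G} (hA : A.Infinite) (γ0 : G) :
    T (e γ0) ∈ closure (Submodule.span ℝ ((fun γ => T (e γ)) '' A) : Set L3) := by
  by_contra hc
  obtain ⟨f, u, h1, h2⟩ := geometric_hahn_banach_closed_point
    (Submodule.span ℝ ((fun γ => T (e γ)) '' A)).convex.closure isClosed_closure hc
  have h0 : ∀ γ ∈ A, f (T (e γ)) = 0 := fun γ hγ => by
    by_contra hne
    have := h1 ((u / f (T (e γ))) • T (e γ))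
      (subset_closure (Submodule.smul_mem _ _ (Submodule.subset_span ⟨γ, hγ, rfl⟩)))
    rw [map_smul, smul_eq_mul, div_mul_cancel₀ _ hne] at this
    exact lt_irrefl _ this
  have hu : 0 < u := by simpa using h1 0 (subset_closure (Submodule.zero_mem _))
  have hg : ∀ γ : G, f (T (e γ)) = ∑' k, f (m k) * (γ : ℝ) ^ k := fun γ => by
    rw [← (f.hasSum (T_sum (e γ))).tsum_eq]
    exact tsum_congr fun k => by rw [map_smul, mu_e, smul_eq_mul, mul_comm]
  have hp := ps (c := fun k => f (m k)) (r := 2) two_pos (C := ‖f‖ * ‖m 0‖) fun k => by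
    have a1 := (f.le_opNorm (m k)).trans (mul_le_mul_of_nonneg_left (m_norm k) (norm_nonneg f))
    have a2 : (1 / 2 : ℝ) ^ k * 2 ^ k = 1 := by rw [← mul_pow]; norm_num
    calc _ ≤ ‖f‖ * (‖m 0‖ * (1 / 2) ^ k) * 2 ^ k :=
          mul_le_mul_of_nonneg_right a1 (by positivity)
      _ = ‖f‖ * ‖m 0‖ * ((1 / 2) ^ k * 2 ^ k) := by ring
      _ = _ := by rw [a2, mul_one]
  have han : AnalyticOnNhd ℝ (fun t : ℝ => ∑' k, f (m k) * t ^ k) (Icc 0 1) :=
    hp.analyticOnNhd.mono fun t ht => by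
      rw [Metric.eball_coe, mem_ball_zero_iff, Real.norm_eq_abs, abs_of_nonneg ht.1]
      exact ht.2.trans_lt (by norm_num)
  obtain ⟨z, hz, hacc⟩ := (hA.image Subtype.val_injective.injOn).exists_accPt_of_subset_isCompact
    isCompact_Icc (by rintro _ ⟨γ, -, rfl⟩; exact γ.2)
  have := han.eqOn_zero_of_preconnected_of_frequently_eq_zero isPreconnected_Icc hz
    ((accPt_iff_frequently_nhdsNE.1 hacc).mono (by
      rintro _ ⟨γ, hγ, rfl⟩
      rw [← hg, h0 γ hγ])) γ0.2
  rw [hg] at h2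
  have h3 : ∑' k, f (m k) * (γ0 : ℝ) ^ k = 0 := this
  linarith

end Pool.Agent.H.MP_3d1c33_an
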