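import Pool.Agent.H.MP_3d1c33_an.B

set_option autoImplicit false

namespace Pool.Agent.H.MP_3d1c33_an

open Set Filter Topology

noncomputable def nn (x : L1) : ℝ := ‖x‖ + 2 * ‖T x‖

lemma ap1 (y z : L1) (t : ℝ) (γ : G) : (y + t • z) γ = y γ + t * z γ := rfl

lemma ap3 (u v : L3) (t : ℝ) (n : ℕ) : (u + t • v) n = u n + t * v n := rfl

lemma d1 (y z : L1) (h : ∀ γ, z γ ≠ 0 → y γ ≠ 0) :
    HasDerivAt (fun t : ℝ => ‖y + t • z‖) (∑' γ, sg (y γ) * z γ) 0 := by
  have := dd (f := fun γ t => |y γ + t * z γ|) (f' := fun γ => sg (y γ) * z γ) (n1 z).summable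
    (by simpa using (n1 y).summable) (fun γ => abs_deriv _ (h γ)) fun γ t _ => by
      have := abs_abs_sub_abs_le (y γ + t * z γ) (y γ + 0 * z γ)
      rwa [show y γ + t * z γ - (y γ + 0 * z γ) = z γ * t by ring, abs_mul] at this
  have e1 : (fun t : ℝ => ‖y + t • z‖) = fun t => ∑' γ, |y γ + t * z γ| :=
    funext fun t => (n1 (y + t • z)).tsum_eq.symm
  rwa [e1]

lemma yg {a b : ℝ} (ha : 0 ≤ a) (hb : 0 ≤ b) : (a + b) ^ 2 * b ≤ 4 * (a ^ 3 + b ^ 3) := by
  nlinarith [mul_nonneg (add_nonneg ha hb) (sq_nonneg (a - b)), mul_nonneg ha (sq_nonneg (a + b))]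

lemma d3 (u v : L3) :
    HasDerivAt (fun t : ℝ => ‖u + t • v‖ ^ 3) (∑' n, 3 * (u n * |u n|) * v n) 0 := by
  have := dd (f := fun n t => |u n + t * v n| ^ 3) (f' := fun n => 3 * (u n * |u n|) * v n)
    (((n3 u).summable.add (n3 v).summable).mul_left 12)
    (by simpa using (n3 u).summable) (fun n => cube_deriv _ _) fun n t ht => by
      have h1 := abs_pow_sub_pow_le (a := |u n + t * v n|) (b := |u n + 0 * v n|) (n := 3)
      have h2 := abs_abs_sub_abs_le (u n + t * v n) (u n + 0 * v n)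
      rw [show u n + t * v n - (u n + 0 * v n) = v n * t by ring, abs_mul] at h2
      have h3 : max (|(|u n + t * v n|)|) (|(|u n + 0 * v n|)|) ≤ |u n| + |v n| := by
        rw [abs_abs, abs_abs, zero_mul, add_zero]
        refine max_le ((abs_add_le _ _).trans ?_) (le_add_of_nonneg_right (abs_nonneg _))
        rw [abs_mul]
        nlinarith [abs_nonneg (v n)]
      refine h1.trans ?_
      have h4 := yg (abs_nonneg (u n)) (abs_nonneg (v n))
      calc _ ≤ |v n| * |t| * (3 : ℕ) * (|u n| + |v n|) ^ (3 - 1) := by gcongr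
        _ = 3 * ((|u n| + |v n|) ^ 2 * |v n|) * |t| := by push_cast; ring
        _ ≤ _ := mul_le_mul_of_nonneg_right (by linarith) (abs_nonneg t)
  have e1 : (fun t : ℝ => ‖u + t • v‖ ^ 3) = fun t => ∑' n, |u n + t * v n| ^ 3 :=
    funext fun t => (n3 (u + t • v)).tsum_eq.symm
  rwa [e1]

noncomputable def J (u v : L3) : ℝ := ∑' n, v n * (u n * |u n|)

lemma dN {u : L3} (hu : u ≠ 0) (v : L3) :
    HasDerivAt (fun t : ℝ => ‖u + t • v‖) (J u v / ‖u‖ ^ 2) 0 := by
  have hu' := norm_pos_iff.2 hu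
  have h1 := (d3 u v).rpow_const (p := 1 / 3) (Or.inl (by simpa using hu))
  have e1 : (fun t : ℝ => (‖u + t • v‖ ^ 3) ^ (1 / 3 : ℝ)) = fun t => ‖u + t • v‖ :=
    funext fun t => by
      rw [one_div]
      exact_mod_cast Real.pow_rpow_inv_natCast (norm_nonneg (u + t • v)) (n := 3) (by norm_num)
  rw [e1] at h1
  refine h1.congr_deriv ?_
  have e2 : ∑' n, 3 * (u n * |u n|) * v n = 3 * J u v := by
    rw [J, ← tsum_mul_left]
    exact tsum_congr fun n => by ring
  rw [e2, zero_smul, add_zero, ← Real.rpow_natCast, ← Real.rpow_mul hu'.le,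
    show ((3 : ℕ) : ℝ) * (1 / 3 - 1) = -((2 : ℕ) : ℝ) by norm_num, Real.rpow_neg hu'.le,
    Real.rpow_natCast]
  field_simp

lemma orth {y z : L1} (hy : y ≠ 0) (h : ∀ γ, z γ ≠ 0 → y γ ≠ 0)
    (hm : ∀ t : ℝ, nn y ≤ nn (y + t • z)) :
    (∑' γ, sg (y γ) * z γ) + 2 * (J (T y) (T z) / ‖T y‖ ^ 2) = 0 := by
  have h1 := (d1 y z h).fun_add ((dN (fun h => hy (T_inj h)) (T z)).const_mul 2)
  refine IsLocalMin.hasDerivAt_eq_zero (Eventually.of_forall fun t => ?_) h1
  have := hm t
  simp only [nn, map_add, map_smul] at this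
  simpa using this

lemma T_le (x : L1) (n : ℕ) : |T x n| ≤ 2 * ‖x‖ * (1 / 2) ^ n := by
  rw [T_apply, abs_mul, abs_of_pos (by positivity), mul_comm]
  refine mul_le_mul_of_nonneg_right ?_ (by positivity)
  have := hasSum_geometric_two.mul_left ‖x‖
  rw [mul_comm] at this
  refine tsum_of_norm_bounded (f := fun k => mu k x * lam n ^ k) this fun k => ?_
  rw [Real.norm_eq_abs, abs_mul, abs_pow]
  exact mul_le_mul (mu_le k x) (pow_le_pow_left₀ (abs_nonneg _) (lam_le n) k) (by positivity)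
    (norm_nonneg _)

lemma T_sm (x : L1) : Summable fun n => |T x n| :=
  Summable.of_nonneg_of_le (fun _ => abs_nonneg _) (T_le x) (summable_geometric_two.mul_left _)

lemma J_bd (v : L3) {u : L3} {R : ℝ} (hu : ‖u‖ ≤ R) (n : ℕ) :
    ‖v n * (u n * |u n|)‖ ≤ |v n| * R ^ 2 := by
  rw [Real.norm_eq_abs, abs_mul, abs_mul, abs_abs, ← sq]
  exact mul_le_mul_of_nonneg_left (pow_le_pow_left₀ (abs_nonneg _) ((le3 u n).trans hu) 2)
    (abs_nonneg _)

lemma J_cont (z : L1) : Continuous fun u => J u (T z) := by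
  refine continuous_iff_continuousAt.2 fun u => ?_
  refine (continuousOn_tsum (s := Metric.ball 0 (‖u‖ + 1)) (fun n => ?_)
    ((T_sm z).mul_right ((‖u‖ + 1) ^ 2)) fun n w hw =>
      J_bd _ (mem_ball_zero_iff.1 hw).le n).continuousAt
    (Metric.isOpen_ball.mem_nhds (mem_ball_zero_iff.2 (by linarith)))
  have : Continuous fun w : L3 => w n := (ev3 n).continuous
  exact (continuous_const.mul (this.mul this.abs)).continuousOn

lemma supp_count (x : L1) : {γ | x γ ≠ 0}.Countable :=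
  (n1 x).summable.countable_support.mono fun γ hγ => by simpa using hγ

lemma kill {y1 y2 z : L1} (h2 : y2 ≠ 0) (h1 : ∀ s : ℝ, y1 + s • y2 ≠ 0)
    (h : ∀ s : ℝ, J (T (y1 + s • y2)) (T z) = 0) : z = 0 := by
  obtain ⟨δ, hδ, hg, hinj⟩ := wron (phi_an y1) (phi_an y2) (fun h => h2 (phi_inj h)) fun s h =>
    h1 s (phi_inj (h.mp (by
      filter_upwards [nhdsWithin_le_nhds (Ioo_mem_nhds (show (-1 : ℝ) < 0 by norm_num) one_pos)]
        with t ht h
      rwa [phi_lin _ _ _ (abs_lt.2 ht)])))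
  have hq := quad (u := fun n => T y1 n) (v := fun n => T y2 n) (c := fun n => T z n)
    (Summable.of_nonneg_of_le (fun n => by positivity) (fun n => by
      refine mul_le_mul_of_nonneg_left ?_ (abs_nonneg _)
      rw [← sq_abs]
      exact pow_le_pow_left₀ (abs_nonneg _) (le3 _ n) 2) ((T_sm z).mul_right (‖T y2‖ ^ 2)))
    fun s => by
      have a1 := (Summable.of_norm_bounded ((T_sm z).mul_right (‖T (y1 + s • y2)‖ ^ 2))
        (J_bd (T z) le_rfl)).hasSum
      have a2 := h s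
      rw [J] at a2
      rw [a2, map_add, map_smul] at a1
      exact a1
  obtain ⟨n0, hn0⟩ := eventually_atTop.1
    ((lam_tend.eventually (Ioo_mem_nhdsGT hδ)).and (eventually_ge_atTop 1))
  have hv : ∀ n, n0 ≤ n → T y2 n ≠ 0 := fun n hn => by
    rw [T_apply]
    exact mul_ne_zero (by positivity) (hg _ (hn0 n hn).1)
  have hs : ∀ n k, n0 ≤ n → n0 ≤ k → T y1 n / T y2 n = T y1 k / T y2 k → n = k := by
    intro n k hn hk he
    rw [T_apply, T_apply, T_apply, T_apply, mul_div_mul_left _ _ (by positivity),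
      mul_div_mul_left _ _ (by positivity)] at he
    have := hinj (hn0 n hn).1 (hn0 k hk).1 he
    rw [lam_eq (hn0 n hn).2, lam_eq (hn0 k hk).2] at this
    exact pow_right_injective₀ (by norm_num) (by norm_num) this
  have hk : ∀ k ∈ Finset.range n0, ∀ᶠ n in atTop, n0 ≤ n → T y1 n / T y2 n ≠ T y1 k / T y2 k := by
    intro k _
    rw [← Nat.cofinite_eq_atTop, eventually_cofinite]
    refine Set.Subsingleton.finite fun n hn n' hn' => ?_
    simp only [mem_ofPred_eq, Classical.not_imp, not_not] at hn hn'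
    exact hs n n' hn.1 hn'.1 (hn.2.trans hn'.2.symm)
  refine T_ev ?_
  filter_upwards [(eventually_all_finset _).2 hk, eventually_ge_atTop n0] with n a1 a2
  have a3 := hq (-(T y1 n / T y2 n))
  have a4 := hv n a2
  rw [tsum_eq_single n, if_pos (by field_simp; ring)] at a3
  · exact (mul_eq_zero.1 a3).resolve_right
      (mul_ne_zero (by norm_num) (mul_ne_zero a4 (abs_ne_zero.2 a4)))
  · intro k hkn
    split_ifs with hc
    · by_cases hk0 : T y2 k = 0
      · simp [hk0]
      · have a5 : T y1 n / T y2 n = T y1 k / T y2 k := by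
          rw [eq_div_iff hk0]
          linarith
        rcases lt_or_ge k n0 with h0 | h0
        · exact absurd a5 (a1 k (Finset.mem_range.2 h0) a2)
        · exact absurd (hs n k a2 h0 a5).symm hkn
    · simp

end Pool.Agent.H.MP_3d1c33_an
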