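import Pool.Agent.H.MP_3d1c33_an.C

set_option autoImplicit false

namespace Pool.Agent.H.MP_3d1c33_an

open Set Filter Topology

lemma sg_mul {a b : ℝ} (ha : a ≠ 0) (hb : b ≠ 0) : sg (a * b) = sg a * sg b := by
  unfold sg
  rcases lt_or_gt_of_ne ha with h | h <;> rcases lt_or_gt_of_ne hb with h' | h'
  · rw [if_pos (mul_pos_of_neg_of_neg h h').le, if_neg (not_le.2 h), if_neg (not_le.2 h')]
    norm_num
  · rw [if_neg (not_le.2 (mul_neg_of_neg_of_pos h h')), if_neg (not_le.2 h), if_pos h'.le]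
    norm_num
  · rw [if_neg (not_le.2 (mul_neg_of_pos_of_neg h h')), if_pos h.le, if_neg (not_le.2 h')]
    norm_num
  · rw [if_pos (mul_pos h h').le, if_pos h.le, if_pos h'.le]
    norm_num

variable {P : L1 →L[ℝ] L1}

lemma step1 (hP : ∀ x, P (P x) = P x) (hn : ∀ x, nn (P x) ≤ nn x)
    (hU : ¬ {γ | ∃ x, P x γ ≠ 0}.Countable) {z : L1} (hz : P z = 0)
    (hs : ∀ γ, z γ ≠ 0 → ∃ x, P x γ ≠ 0) : z = 0 := by
  by_contra hz0
  have := (supp_count z).to_subtype
  obtain ⟨x2, hx2⟩ := (dense_iInter_of_isOpen (f := fun γ : {γ | z γ ≠ 0} => {x | P x γ ≠ 0})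
    (fun γ => isOpen_ne_fun ((ev1 γ).continuous.comp P.continuous) continuous_const)
    fun γ => by
      have h1 : interior ((ev1 γ ∘L P).ker : Set L1) = ∅ := by
        by_contra h
        have h2 := Submodule.eq_top_of_nonempty_interior' _ (nonempty_iff_ne_empty.2 h)
        obtain ⟨x, hx⟩ := hs γ γ.2
        have h3 : x ∈ (ev1 γ ∘L P).ker := h2 ▸ Submodule.mem_top
        exact hx h3
      exact interior_eq_empty_iff_dense_compl.1 h1).nonempty
  have hy2 : ∀ γ, z γ ≠ 0 → P x2 γ ≠ 0 := fun γ hγ => mem_iInter.1 hx2 ⟨γ, hγ⟩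
  obtain ⟨γ1, ⟨x1, hx1⟩, hγ1⟩ : ∃ γ, (∃ x, P x γ ≠ 0) ∧ P x2 γ = 0 := by
    by_contra h
    push Not at h
    exact hU ((supp_count (P x2)).mono fun γ hγ => h γ hγ)
  have h2 : P x2 ≠ 0 := fun h => hz0 (ext1 fun γ => by
    by_contra hγ
    exact hy2 γ hγ (by rw [h, zero1]))
  have h1 : ∀ s : ℝ, P x1 + s • P x2 ≠ 0 := fun s h => hx1 (by
    have := congrArg (fun x : L1 => x γ1) h
    simpa only [ap1, hγ1, mul_zero, add_zero, zero1] using this)
  have hc : Continuous fun s : ℝ => T (P x1 + s • P x2) := by fun_prop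
  have hj := jumps (b := fun γ => sg (P x2 γ) * z γ) (p := fun γ => -(P x1 γ / P x2 γ))
    ((sm1 z fun γ => (sg_abs (P x2 γ)).le).congr fun γ => mul_comm _ _)
    (H := fun s => -(2 * (J (T (P x1 + s • P x2)) (T z) / ‖T (P x1 + s • P x2)‖ ^ 2)))
    ((continuous_const.mul (((J_cont z).comp hc).div (hc.norm.pow 2) fun s =>
      pow_ne_zero 2 (norm_ne_zero_iff.2 fun h => h1 s (T_inj h)))).neg)
    ((supp_count z).image fun γ => -(P x1 γ / P x2 γ)) fun s hsD => by
      have a0 : ∀ γ, z γ ≠ 0 → s - -(P x1 γ / P x2 γ) ≠ 0 := fun γ hγ h =>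
        hsD ⟨γ, hγ, (sub_eq_zero.1 h).symm⟩
      have a1 : ∀ γ, z γ ≠ 0 → (P x1 + s • P x2) γ = P x2 γ * (s - -(P x1 γ / P x2 γ)) :=
        fun γ hγ => by
          have := hy2 γ hγ
          rw [ap1]
          field_simp
          ring
      have a2 := orth (h1 s) (z := z)
        (fun γ hγ => by rw [a1 γ hγ]; exact mul_ne_zero (hy2 γ hγ) (a0 γ hγ)) fun t => by
          have := hn (P x1 + s • P x2 + t • z)
          rwa [map_add, map_add, map_smul, map_smul, hP, hP, hz, smul_zero, add_zero] at this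
      rw [← eq_neg_of_add_eq_zero_left a2]
      refine tsum_congr fun γ => ?_
      by_cases hγ : z γ = 0
      · simp [hγ]
      · rw [a1 γ hγ, sg_mul (hy2 γ hγ) (a0 γ hγ)]
        ring
  refine hz0 (kill h2 h1 fun s => ?_)
  have a1 := hj s
  have a2 : ‖T (P x1 + s • P x2)‖ ^ 2 ≠ 0 :=
    pow_ne_zero 2 (norm_ne_zero_iff.2 fun h => h1 s (T_inj h))
  simp only [neg_eq_zero, mul_eq_zero, OfNat.ofNat_ne_zero, false_or, div_eq_zero_iff] at a1
  exact a1.resolve_right a2

theorem core (hP : ∀ x, P (P x) = P x) (hn : ∀ x, nn (P x) ≤ nn x)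
    (hU : ¬ {γ | ∃ x, P x γ ≠ 0}.Countable) {z : L1} (hz : P z = 0) : z = 0 := by
  refine step1 hP hn hU hz fun γ0 _ => ?_
  by_contra h0
  push Not at h0
  have he : ∀ γ, (∃ x, P x γ ≠ 0) → P (e γ) = e γ := fun γ hγ => by
    have := step1 hP hn hU (z := e γ - P (e γ)) (by rw [map_sub, hP, sub_self]) fun δ hδ => by
      by_cases h : δ = γ
      · rwa [h]
      · exact ⟨e γ, by rwa [sub1, e_apply, if_neg h, zero_sub, neg_ne_zero] at hδ⟩
    exact (sub_eq_zero.1 this).symm
  set v := P (e γ0) with hv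
  set A : Set G := {γ | (∃ x, P x γ ≠ 0) ∧ v γ = 0} with hA
  have hAi : A.Infinite := fun h => hU ((h.countable.union (supp_count v)).mono fun γ hγ => by
    by_cases h : v γ = 0
    · exact Or.inl ⟨hγ, h⟩
    · exact Or.inr h)
  have key : ∀ w ∈ Submodule.span ℝ ((fun γ => T (e γ)) '' A),
      ∃ y, T y = w ∧ P y = y ∧ ∀ γ, v γ ≠ 0 → y γ = 0 := by
    intro w hw
    induction hw using Submodule.span_induction with
    | mem w hw =>
      obtain ⟨γ, hγ, rfl⟩ := hw
      exact ⟨e γ, rfl, he γ hγ.1, fun δ hδ => by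
        rw [e_apply, if_neg (by rintro rfl; exact hδ hγ.2)]⟩
    | zero => exact ⟨0, map_zero _, map_zero _, fun _ _ => rfl⟩
    | add w w' _ _ h1 h2 =>
      obtain ⟨y, a1, a2, a3⟩ := h1
      obtain ⟨y', b1, b2, b3⟩ := h2
      exact ⟨y + y', by rw [map_add, a1, b1], by rw [map_add, a2, b2],
        fun γ hγ => by rw [add1, a3 γ hγ, b3 γ hγ, add_zero]⟩
    | smul c w _ h1 =>
      obtain ⟨y, a1, a2, a3⟩ := h1
      exact ⟨c • y, by rw [map_smul, a1], by rw [map_smul, a2],
        fun γ hγ => by rw [smul1, a3 γ hγ, mul_zero]⟩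
  have k2 : ‖v‖ + 2 * ‖T (v - e γ0)‖ ≤ 1 := by
    refine le_of_forall_pos_le_add fun ε hε => ?_
    obtain ⟨w, hw, hd⟩ := Metric.mem_closure_iff.1 (dens hAi γ0) (ε / 4) (by positivity)
    obtain ⟨y, a1, a2, a3⟩ := key w hw
    have b1 := hn (e γ0 - y)
    rw [map_sub, a2, ← hv] at b1
    have b2 : ‖v - y‖ = ‖v‖ + ‖y‖ := (n1 (v - y)).unique (((n1 v).add (n1 y)).congr_fun fun γ => by
      rw [sub1]
      by_cases h : v γ = 0
      · simp [h]
      · simp [a3 γ h])
    have b3 := norm_sub_le (e γ0) y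
    rw [e_norm] at b3
    rw [dist_eq_norm, ← a1, ← map_sub] at hd
    have b4 := norm_sub_le (T (v - y)) (T (e γ0 - y))
    rw [← map_sub, sub_sub_sub_cancel_right] at b4
    unfold nn at b1
    linarith
  have k3 := mu_le_T (v - e γ0)
  rw [map_sub, mu_e, pow_zero] at k3
  have k4 := (abs_le.1 (mu_le 0 v)).2
  have k5 := (abs_le.1 k3).1
  have k6 : T (v - e γ0) = 0 := norm_le_zero_iff.1 (by linarith)
  have k7 := h0 (e γ0)
  rw [← hv, sub_eq_zero.1 (T_inj k6), e_apply, if_pos rfl] at k7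
  exact one_ne_zero k7

def E : Type := L1

noncomputable instance : AddCommGroup E := inferInstanceAs (AddCommGroup L1)
noncomputable instance : Module ℝ E := inferInstanceAs (Module ℝ L1)

noncomputable def toL : E ≃ₗ[ℝ] L1 := LinearEquiv.refl ℝ L1

noncomputable instance : NormedAddCommGroup E := AddGroupNorm.toNormedAddCommGroup
  { toFun := fun x => nn (toL x)
    map_zero' := by simp [nn]
    add_le' := fun x y => by
      simp only [nn, map_add]
      linarith [norm_add_le (toL x) (toL y), norm_add_le (T (toL x)) (T (toL y))]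
    neg' := fun x => by simp [nn]
    eq_zero_of_map_eq_zero' := fun x hx => by
      have h1 := norm_nonneg (T (toL x))
      have h2 : ‖toL x‖ ≤ 0 := by unfold nn at hx; linarith
      exact toL.map_eq_zero_iff.1 (norm_le_zero_iff.1 h2) }

lemma normE (x : E) : ‖x‖ = nn (toL x) := rfl

noncomputable instance : NormedSpace ℝ E := ⟨fun c x => by
  simp only [normE, nn, map_smul, norm_smul]
  linarith⟩

noncomputable def eqv : E ≃L[ℝ] L1 := toL.toContinuousLinearEquivOfBounds 1 (1 + 2 * ‖T‖)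
  (fun x => by rw [normE, nn]; linarith [norm_nonneg (T (toL x))])
  (fun x => by rw [normE, nn, LinearEquiv.apply_symm_apply]; linarith [T.le_opNorm x])

lemma normE' (x : E) : ‖x‖ = nn (eqv x) := rfl

instance : CompleteSpace E :=
  (completeSpace_congr (e := eqv.toEquiv) eqv.isUniformEmbedding).2 inferInstance

open Classical in
noncomputable def cut (S : Set G) : L1 →L[ℝ] L1 :=
  LinearMap.mkContinuous
    ⟨⟨fun x => show K1 from ⟨fun γ => if γ ∈ S then x γ else 0, memℓp_gen (by
        refine Summable.of_nonneg_of_le (fun _ => by positivity) (fun γ => ?_) (n1 x).summable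
        split_ifs <;> simp)⟩,
      fun x y => ext1 fun γ => by
        show (if γ ∈ S then (x + y) γ else 0) =
          (if γ ∈ S then x γ else 0) + (if γ ∈ S then y γ else 0)
        split_ifs <;> simp [add1]⟩,
      fun c x => ext1 fun γ => by
        show (if γ ∈ S then (c • x) γ else 0) = c * (if γ ∈ S then x γ else 0)
        split_ifs <;> simp [smul1]⟩ 1 fun x => by
    rw [one_mul]
    refine hasSum_le (fun γ => ?_) (n1 _) (n1 x)
    show |if γ ∈ S then x γ else 0| ≤ _
    split_ifs <;> simp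

open Classical in
lemma cut_apply (S : Set G) (x : L1) (γ : G) : cut S x γ = if γ ∈ S then x γ else 0 := rfl

lemma cut_tend (π : G → ℕ) (x : L1) :
    Tendsto (fun N => ∑ n ∈ Finset.range N, cut {γ | π γ = n} x) atTop (𝓝 x) := by
  rw [tendsto_iff_norm_sub_tendsto_zero]
  have h1 : ∀ N γ, (∑ n ∈ Finset.range N, cut {γ | π γ = n} x - x) γ =
      if π γ < N then 0 else -x γ := fun N γ => by
    have : (∑ n ∈ Finset.range N, cut {γ | π γ = n} x) γ =
        ∑ n ∈ Finset.range N, cut {γ | π γ = n} x γ := map_sum (ev1 γ) _ _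
    rw [sub1, this]
    split_ifs with h
    · rw [Finset.sum_eq_single (π γ) (fun n _ hn => by
        rw [cut_apply, if_neg (show γ ∉ {γ | π γ = n} from fun h' => hn (Eq.symm h'))])
        (fun h' => absurd (Finset.mem_range.2 h) h'), cut_apply,
        if_pos (show γ ∈ {δ | π δ = π γ} from rfl), sub_self]
    · rw [Finset.sum_eq_zero fun n hn => by
        rw [cut_apply, if_neg (show γ ∉ {γ | π γ = n} from
          fun h' : π γ = n => h (h' ▸ Finset.mem_range.1 hn))], zero_sub]
  have h2 := tendsto_tsum_of_dominated_convergence (𝓕 := atTop)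
    (f := fun (N : ℕ) (γ : G) => |if π γ < N then 0 else -x γ|) (g := fun _ => 0) (n1 x).summable
    (fun γ => tendsto_const_nhds.congr' (by
      filter_upwards [eventually_gt_atTop (π γ)] with N hN
      rw [if_pos hN, abs_zero]))
    (Eventually.of_forall fun N γ => by split_ifs <;> simp)
  rw [tsum_zero] at h2
  refine h2.congr fun N => ?_
  rw [← (n1 _).tsum_eq]
  exact tsum_congr fun γ => by rw [h1]

lemma G_unc : ¬ (univ : Set G).Countable := fun h => by
  have := h.image Subtype.val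
  rw [image_univ, Subtype.range_coe, ← Cardinal.le_aleph0_iff_set_countable,
    Cardinal.mk_Icc_real one_pos] at this
  exact absurd this (not_le.2 Cardinal.aleph0_lt_continuum)

theorem has_dec : ∃ v : ℕ → (E →L[ℝ] E), (∀ n, v n ≠ 0) ∧
    (∀ n m, (v n).comp (v m) = if n = m then v n else 0) ∧
    (∀ x : E, Tendsto (fun N => ∑ n ∈ Finset.range N, v n x) atTop (𝓝 x)) := by
  have : Infinite G := infinite_univ_iff.1 fun h => G_unc h.countable
  obtain ⟨π, hπ⟩ : ∃ π : G → ℕ, Function.Surjective π :=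
    ⟨_, Function.invFun_surjective (Infinite.natEmbedding G).injective⟩
  refine ⟨fun n => (eqv.symm : L1 →L[ℝ] E) ∘L cut {γ | π γ = n} ∘L (eqv : E →L[ℝ] L1),
    fun n h => ?_, fun n m => ?_, fun x => ?_⟩
  · obtain ⟨γ, hγ⟩ := hπ n
    have := congrArg (fun w : E →L[ℝ] E => eqv (w (eqv.symm (e γ))) γ) h
    simp [cut_apply, hγ, e_apply, zero1] at this
  · ext x
    refine eqv.injective (ext1 fun γ => ?_)
    by_cases h : n = m
    · by_cases h' : π γ = m <;> simp [h, cut_apply, h']
    · by_cases h' : π γ = n <;> simp [h, cut_apply, h', zero1]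
  · have := (eqv.symm.continuous.tendsto _).comp (cut_tend π (eqv x))
    rw [eqv.symm_apply_apply] at this
    refine this.congr fun N => ?_
    simp [map_sum]

theorem no_normal (w : ℕ → (E →L[ℝ] E)) (h0 : ∀ n, w n ≠ 0)
    (h1 : ∀ n m, (w n).comp (w m) = if n = m then w n else 0)
    (h2 : ∀ x : E, Tendsto (fun N => ∑ n ∈ Finset.range N, w n x) atTop (𝓝 x))
    (h3 : ∀ n, ‖w n‖ = 1) : False := by
  obtain ⟨n, hn⟩ : ∃ n, ¬ {γ | ∃ x, eqv (w n (eqv.symm x)) γ ≠ 0}.Countable := by
    by_contra h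
    push Not at h
    refine G_unc ((countable_iUnion h).mono fun γ _ => ?_)
    by_contra hγ
    simp only [mem_iUnion, mem_ofPred_eq, not_exists, not_not] at hγ
    have a1 := ((ev1 γ ∘L (eqv : E →L[ℝ] L1)).continuous.tendsto _).comp (h2 (eqv.symm (e γ)))
    have a2 : ∀ N, (ev1 γ ∘L (eqv : E →L[ℝ] L1))
        (∑ n ∈ Finset.range N, w n (eqv.symm (e γ))) = 0 := fun N => by
      rw [map_sum]
      exact Finset.sum_eq_zero fun n _ => hγ n (e γ)
    have a3 := tendsto_nhds_unique (a1.congr a2) tendsto_const_nhds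
    have a4 : e γ γ = 0 := by
      rw [← eqv.apply_symm_apply (e γ)]
      exact a3
    rw [e_apply, if_pos rfl] at a4
    exact one_ne_zero a4
  refine h0 (n + 1) (ContinuousLinearMap.ext fun x => eqv.injective ?_)
  have b1 := congrArg (fun u : E →L[ℝ] E => u x) (h1 n (n + 1))
  simp only [ContinuousLinearMap.comp_apply, if_neg (Nat.succ_ne_self n).symm] at b1
  rw [_root_.zero_apply, map_zero]
  refine core (P := (eqv : E →L[ℝ] L1) ∘L w n ∘L (eqv.symm : L1 →L[ℝ] E)) (fun y => ?_)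
    (fun y => ?_) hn ?_
  · have := congrArg (fun u : E →L[ℝ] E => u (eqv.symm y)) (h1 n n)
    simp only [ContinuousLinearMap.comp_apply, if_true] at this
    simp [this]
  · have := (w n).le_opNorm (eqv.symm y)
    rw [h3, one_mul, normE', normE', eqv.apply_symm_apply] at this
    exact this
  · simp [b1]

end Pool.Agent.H.MP_3d1c33_an
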